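import Pool.Agent.H2.SadA

set_option autoImplicit false

namespace Pool.Agent.Results.MP_235f01_an.NoUnc

open Filter Topology

/-- No real Banach space with a 1-unconditional Schauder basis has the super alternative
Daugavet property. -/
theorem result (X : Type) [NormedAddCommGroup X] [NormedSpace ℝ X] [CompleteSpace X] (e : ℕ → X)
    (hbasis : ∀ x : X, ∃! a : ℕ → ℝ,
      Tendsto (fun n => ∑ i ∈ Finset.range n, a i • e i) atTop (𝓝 x))
    (hunc : ∀ (s : Finset ℕ) (a ε : ℕ → ℝ), (∀ n, ε n = 1 ∨ ε n = -1) →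
      ‖∑ n ∈ s, (ε n * a n) • e n‖ = ‖∑ n ∈ s, a n • e n‖) :
    ¬ ∀ x : X, ‖x‖ = 1 → ∀ W : Set (WeakSpace ℝ X), IsOpen W →
      (∃ y : X, ‖y‖ ≤ 1 ∧ toWeakSpace ℝ X y ∈ W) →
        IsLUB {r : ℝ | ∃ y : X, ‖y‖ ≤ 1 ∧ toWeakSpace ℝ X y ∈ W ∧ r = max ‖x + y‖ ‖x - y‖} 2 := by
  intro h
  have hne : ∀ n, e n ≠ 0 := by
    intro n hn
    have h1 := (hbasis 0).unique (y₁ := fun _ => 0) (y₂ := Pi.single n 1) (by simp) (by
      refine tendsto_const_nhds.congr fun m => (Finset.sum_eq_zero fun i _ => ?_).symm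
      by_cases hi : i = n
      · rw [hi, hn, smul_zero]
      · rw [Pi.single_eq_of_ne hi, zero_smul])
    simpa using congrFun h1 n
  have hd : Dense (Submodule.span ℝ (Set.range e) : Set X) := fun x => by
    obtain ⟨a, ha, -⟩ := hbasis x
    exact mem_closure_of_tendsto ha (Eventually.of_forall fun n => Submodule.sum_mem _ fun i _ =>
      Submodule.smul_mem _ _ (Submodule.subset_span ⟨i, rfl⟩))
  obtain ⟨U, U1, U2⟩ := Pool.Agent.H87.PiBase.main'' (e := e)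
    (fun s a ε hε => (hunc s a ε hε).le) hne hd
  obtain ⟨f, hf⟩ := Pool.Agent.H2.Sad.exists_fun
    (fun n => {y : X | ‖y‖ ≤ 1 ∧ toWeakSpace ℝ X y ∈ U n}) (fun n y hy => hy.1)
    (‖e 0‖⁻¹ • e 0) (by rw [norm_smul, norm_inv, norm_norm, inv_mul_cancel₀ (norm_ne_zero_iff.mpr (hne 0))])
    fun x hx n δ hδ => by
      obtain ⟨_, h1, y, h2, rfl⟩ := (U1 n).2
      obtain ⟨_, ⟨z, z1, z2, rfl⟩, z3, -⟩ := (h x hx (U n) (U1 n).1
        ⟨y, mem_closedBall_zero_iff.mp h2, h1⟩).exists_between (show 2 - δ < 2 by linarith)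
      exact ⟨z, ⟨z1, z2⟩, z3⟩
  obtain ⟨n, hn⟩ := U2 {y | |f ((toWeakSpace ℝ X).symm y)| < 1 / 2}
    (isOpen_lt (WeakBilin.eval_continuous (topDualPairing ℝ X).flip f).abs continuous_const)
    ⟨toWeakSpace ℝ X 0, by simp, 0, by simp, rfl⟩
  obtain ⟨y, hy, h1⟩ := hf n
  have h2 : |f y| < 1 / 2 := hn ⟨hy.2, y, mem_closedBall_zero_iff.mpr hy.1, rfl⟩
  linarith

end Pool.Agent.Results.MP_235f01_an.NoUnc
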